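import Mathlib
import Pool.Agent.H204.BB.Main

/-!
# The endpoints of a Cannon-Thurston lamination can have positive Hausdorff dimension

Let `H` be the free group of rank three, with basis `a, b, c`, let `A` be the free factor generated
by `a` and `b`, and let `Z` be the Bowditch boundary of `H` relative to `A`, i.e. the set of the
vertices `g A` and the ends of the Bass-Serre tree of the splitting `H = A * ⟨c⟩`. The
Cannon-Thurston map `∂H → Z` is constant on the boundary of `A`. So all points of `∂A` are endpoints
of the Cannon-Thurston lamination, and `∂A` has positive Hausdorff dimension.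
-/

set_option autoImplicit false

namespace Pool.Agent.Results.MP_d1e581_al.LargeLamination

open Pool.Agent.R639.CT Pool.Agent.H322R3.Hyp Pool.Agent.H204.BB Filter Topology

/-- The free group `H` of rank three is word-hyperbolic and non-elementary, and it has an action by
homeomorphisms on a metrizable compactum `Z` which is properly discontinuous on the space of
distinct triples, has an infinite limit set, and for which there is a Cannon-Thurston map `f` such
that the set of endpoints of the Cannon-Thurston lamination has positive Hausdorff dimension for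
every visual metric on `∂H = ∂X` which comes from a geometric action of `H` on a tree `X`. There is a
proper tree `X` with a geometric action of `H`, and a visual metric. -/
theorem result :
    ((basis 3).Finite ∧ Subgroup.closure (basis 3) = ⊤ ∧ IsHyperbolic (basis 3) ∧
      Infinite (Boundary (basis 3))) ∧
    (∃ (Z : Type) (_ : TopologicalSpace Z) (_ : MulAction (FreeGroup (Fin 3)) Z)
      (f : Boundary (basis 3) → Z),
      CompactSpace Z ∧ TopologicalSpace.MetrizableSpace Z ∧
      (∀ h : FreeGroup (Fin 3), Continuous fun z : Z => h • z) ∧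
      IsProperOnTriples (FreeGroup (Fin 3)) Z ∧
      (LimitSet (FreeGroup (Fin 3)) Z).Infinite ∧
      Continuous f ∧
      (∃ z₀ : Z, ∀ (x : ℕ → FreeGroup (Fin 3)) (ξ : Boundary (basis 3)), ConvTo (basis 3) x ξ →
        Tendsto (fun n => x n • z₀) atTop (𝓝 (f ξ))) ∧
      ∀ (X : Type) [MetricSpace X] [MulAction (FreeGroup (Fin 3)) X],
        IsTree X → IsGeometric (FreeGroup (Fin 3)) X → ∀ (x₀ : X) (a : ℝ), 1 < a →
        ∀ m : MetricSpace (Boundary (basis 3)), IsVisual (basis 3) x₀ a m →
          0 < hausdorffDim m {p | ∃ q, p ≠ q ∧ f p = f q}) ∧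
    ∃ (X : Type) (_ : MetricSpace X) (_ : MulAction (FreeGroup (Fin 3)) X) (x₀ : X) (a : ℝ)
      (m : MetricSpace (Boundary (basis 3))), ProperSpace X ∧ IsTree X ∧
      IsGeometric (FreeGroup (Fin 3)) X ∧ 1 < a ∧ IsVisual (basis 3) x₀ a m := by
  refine ⟨⟨Set.finite_range _, FreeGroup.closure_range_of _, isHyperbolic_free,
    infinite_boundary⟩, ?_, ?_⟩
  · haveI := metrizable (2 : Fin 3)
    refine ⟨ZZ (2 : Fin 3), inferInstance, inferInstance, ctMap (2 : Fin 3), inferInstance,
      metrizable (2 : Fin 3), continuous_smul, isProperOnTriples (isConvergenceAction _),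
      limitSet_infinite (lt3_ne 0), ctMap_continuous _,
      ⟨pt 2 1, fun x ξ hx => ctMap_tendsto 2 hx⟩, ?_⟩
    intro X _ _ hX hG x₀ a ha m hm
    exact (dim_pos hX hG x₀ a ha m hm lt3_injective).trans_le
      (hausdorffDim_mono m range_subset_endpoints)
  · exact ⟨CTree (Fin 3), inferInstance, inferInstance, oo, 2, stdMetric (Fin 3),
      properSpace_cTree, isTree_cTree, isGeometric_cTree, one_lt_two, isVisual_std⟩

end Pool.Agent.Results.MP_d1e581_al.LargeLamination
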